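import Pool.Agent.Zk97.CB.F4
import Pool.Agent.Zk97.CB.W
import Pool.Agent.Zk20.CB.R
import Pool.Agent.Zk52.CB.D
import Pool.Agent.Zk64.CB.CC
import Pool.Agent.Zk78.CB.Z

set_option autoImplicit false

/-!
# The Tauberian generalized Nagao conjecture for pencils of `C_ab` curves

Let `l` and `n` be coprime, and let `x` have the weight `l` and `y` the weight `n`. A `C_ab` curve is a
curve `y^l - x^n + (monomials of weight < l n) = 0`. If it is smooth, it has the genus
`(l - 1) (n - 1) / 2` and one point at infinity, which is rational; `l = 2` is the case of the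
hyperelliptic curves with a rational Weierstrass point at infinity (with arbitrary terms `x^j y`), and
the curves with `l ≥ 3` are not hyperelliptic in general, for example the smooth plane quartics with a
hyperflex, `(l, n) = (3, 4)`, and all superelliptic curves `y^l = f(x)` with `deg f` prime to `l`.

Let `M` be a finitely generated field of characteristic zero, of transcendence degree `d` over `ℚ`,
which contains the number field `k`. Let `B ∈ M[x, y]` be the polynomial of a `C_ab` curve and let
`A ∈ M[x, y]` be any nonzero polynomial all of whose monomials have a weight `< l n`. We study the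
generic member `C : B = w A` of the pencil of curves which is spanned by `B` and `A`, a curve over
`K = M(w)`, the function field of a variety of dimension `m = d + 1` over `k`. (As `M` is arbitrary,
this contains the generic members `B = ∑ w_i A_i` of linear systems of any dimension.) Assume that `C` is
smooth, that is, that the ring `K[x, y] / (B - w A)` is a Dedekind domain.

The algebraic side: as `C` has one point at infinity, `J(K)` is the class group of this ring, and its
rank is `β - α`, where `β` is the number of the closed points of the base locus `A = B = 0` in the plane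
over `M`, and `α` is the number of the irreducible components over `M` of the curve `A = 0`. For example,
for `A` irreducible over `M` of weight `s` which meets `B = 0` in `s` different points over `M` the rank is
`s - 1`; so ranks up to `l n - 2` are possible.

The analytic side: let `R` be any model of `K` over the integers of `k`, that is any integral domain which
is finitely generated as a ring, contains the integers of `k` and has the field of fractions `K`, and over
which the curve has an equation `G = 0`, and let `N` be any nonzero element of `R` (for example a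
multiple of the discriminant, so that the fibres over the points with `N ≠ 0` are smooth).  Let `𝔄_v` be
the fibre averages over the points of `Spec R` above `v` with `N ≠ 0`.  Then the averages
`T⁻¹ ∑_{q_v ≤ T} 𝔄_v log q_v` converge to `-rank J(K)` for `T → ∞`.

The theorem applies to `M k'` for all the finite extensions `k'` of `k`, and the rank remains bounded (by
the number of the geometric points of the base locus). Thus the `K/k`-trace of `J` is zero, and `𝔄* = 𝔄`.

The proof. (a) The surface `B = w A` is the plane blown up in the base locus, without the curve `A = 0`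
elsewhere: `K[x, y, 1/A] / (B - w A)` is a localization of `M[x, y]`, so it is factorial, and the class
group of `K[x, y] / (B - w A)` is generated by the primes over the base points. All members
`B - w₀ A`, for `w₀` in an extension of `M`, are irreducible (leading forms `y^l - x^n`), so all relations
come from the components of `A = 0` and from units; the units of `K[x, y] / (B - w A)` are constants, as
`C` has only one point at infinity. (b) Over a finite field with `q` elements the sum over `w` of
`#(B = w A) - q` is `q #(A = B = 0) - #(A = 0)`, and the average number of the points of a variety is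
the number of its components of the maximal dimension (Lang, Weil and Landau, for all finitely generated
fields). (c) Different models are compared with a uniform form of Weil's bound for all
`C_ab` curves, also singular ones.
-/

namespace Pool.Agent.Zk97.Old.CabPencils

open Polynomial NumberField IsDedekindDomain Filter Topology

/-- All monomials `x^j y^i` of `P` have a weight `l j + n i < e`. (`P : R[X][X]` is a polynomial in `y`,
the outer variable, with coefficients in `R[x]`.) -/
def Below {R : Type} [CommRing R] (l n e : ℕ) (P : R[X][X]) : Prop :=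
  ∀ i j : ℕ, (P.coeff i).coeff j ≠ 0 → l * j + n * i < e

/-- `P = y^l - x^n +` monomials of weight `< l n`: the polynomial of a `C_ab` curve. -/
def IsCab {R : Type} [CommRing R] (l n : ℕ) (P : R[X][X]) : Prop :=
  Below l n (l * n) (P - (X ^ l - C (X ^ n)))

/-- The generic member `B - w A` of the pencil, a polynomial over `K`. -/
noncomputable def member {M K : Type} [Field M] [Field K] [Algebra M K] (A B : M[X][X]) (w : K) :
    K[X][X] :=
  B.map (mapRingHom (algebraMap M K)) - C (C w) * A.map (mapRingHom (algebraMap M K))

/-- The number of the closed points over `M` of the base locus `A = B = 0`. -/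
noncomputable def basePoints {M : Type} [Field M] (A B : M[X][X]) : ℕ :=
  Nat.card {𝔪 : Ideal M[X][X] // 𝔪.IsMaximal ∧ A ∈ 𝔪 ∧ B ∈ 𝔪}

/-- The number of the irreducible components over `M` of the curve `A = 0`. -/
noncomputable def components {M : Type} [Field M] (A : M[X][X]) : ℕ :=
  Nat.card {𝔭 : Ideal M[X][X] // ∃ π : M[X][X], Irreducible π ∧ π ∣ A ∧ 𝔭 = Ideal.span {π}}

/-- The trace of the Frobenius on `H¹` of the curve `g = 0`, for a smooth `C_ab` curve over the finite
field `F`: the number of the elements of `F` minus the number of the affine points. -/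
noncomputable def traceOne (F : Type) [Field F] (g : F[X][X]) : ℝ :=
  (Nat.card F : ℝ) - Nat.card {P : F × F // evalEval P.1 P.2 g = 0}

/-- The average `𝔄_v = q_v^{-m} ∑ a(fibre)` of the traces of the fibres of `G = 0` over the points of
`Spec R` above `v`, rational over the residue field of `v`, at which `N` does not vanish. -/
noncomputable def average {k R : Type} [Field k] [NumberField k] [CommRing R] [Algebra (𝓞 k) R]
    (G : R[X][X]) (N : R) (m : ℕ) (v : HeightOneSpectrum (𝓞 k)) : ℝ :=
  ((Nat.card (𝓞 k ⧸ v.asIdeal) : ℝ) ^ m)⁻¹ *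
    ∑ᶠ φ : {φ : R →+* 𝓞 k ⧸ v.asIdeal //
      φ.comp (algebraMap (𝓞 k) R) = Ideal.Quotient.mk v.asIdeal ∧ φ N ≠ 0},
        traceOne (𝓞 k ⧸ v.asIdeal) (G.map (mapRingHom φ.1))

/-- `Σ_T(b) = ∑_{v ∉ S, q_v ≤ T} b(v) log q_v`. -/
noncomputable def sumUpTo {k : Type} [Field k] [NumberField k] (S : Finset (HeightOneSpectrum (𝓞 k)))
    (b : HeightOneSpectrum (𝓞 k) → ℝ) (T : ℝ) : ℝ :=
  ∑ᶠ v ∈ {v : HeightOneSpectrum (𝓞 k) | v ∉ S ∧ (Ideal.absNorm v.asIdeal : ℝ) ≤ T},
    b v * Real.log (Ideal.absNorm v.asIdeal : ℝ)

/-- **The Tauberian generalized Nagao conjecture for all pencils `B = w A` of `C_ab` curves over `M(w)`,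
for an arbitrary finitely generated field `M` of characteristic zero and for every model.** -/
theorem result {k : Type} [Field k] [NumberField k] {M : Type} [Field M] [CharZero M] [Algebra k M]
    (hM : ∃ S : Finset M, Subfield.closure (S : Set M) = ⊤) {d : ℕ} (hd : Algebra.trdeg ℚ M = d)
    {K : Type} [Field K] [CharZero K] [Algebra M K] {w : K} (hw : Transcendental M w)
    (hK : IntermediateField.adjoin M {w} = ⊤)
    {l n : ℕ} (hl : 0 < l) (hn : 0 < n) (hln : l.Coprime n) {A B : M[X][X]} (hB : IsCab l n B)
    (hA : Below l n (l * n) A) (hA0 : A ≠ 0) (hs : IsDedekindDomain (AdjoinRoot (member A B w))) :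
    Algebra.trdeg ℚ K = (d + 1 : ℕ) ∧ Irreducible (member A B w) ∧
    -- the algebraic side: the rank of `J(K)`
    Finite {𝔪 : Ideal M[X][X] // 𝔪.IsMaximal ∧ A ∈ 𝔪 ∧ B ∈ 𝔪} ∧
    Finite {𝔭 : Ideal M[X][X] // ∃ π : M[X][X], Irreducible π ∧ π ∣ A ∧ 𝔭 = Ideal.span {π}} ∧
    components A ≤ basePoints A B ∧
    Module.rank ℤ (Additive (ClassGroup (AdjoinRoot (member A B w)))) =
      (basePoints A B - components A : ℕ) ∧
    -- the analytic side: the limit of the averages of the `𝔄_v`, for every model
    ∀ (R : Type) [CommRing R] [IsDomain R] [Algebra.FiniteType ℤ R] [Algebra R K]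
      [IsFractionRing R K] [Algebra (𝓞 k) R],
      (∀ z : 𝓞 k, algebraMap R K (algebraMap (𝓞 k) R z) = algebraMap M K (algebraMap k M z)) →
      ∀ G : R[X][X], G.map (mapRingHom (algebraMap R K)) = member A B w →
        ∀ N : R, N ≠ 0 → ∀ S : Finset (HeightOneSpectrum (𝓞 k)),
          Tendsto (fun T : ℝ => sumUpTo S (fun v => average G N (d + 1) v) T / T) atTop
            (𝓝 (-((basePoints A B - components A : ℕ) : ℝ))) := by
  classical
  have hP : Pool.Agent.Zk97.CB.Pencil l n A B := ⟨hl, hn, hln, hB, hA0, hA⟩
  have hW := Pool.Agent.Zk97.CB.t_W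
  have hD := Pool.Agent.Zk52.CB.t_D
  have hR := Pool.Agent.Zk20.CB.t_R
  have hZ := Pool.Agent.Zk78.CB.t_Z hW
  have hC := Pool.Agent.Zk64.CB.t_C
  have hL : ∀ z : K, ∃ p q : M[X], aeval w q ≠ 0 ∧ z * aeval w q = aeval w p :=
    fun z => Pool.Agent.R410.NG.gen_line hK z hw
  have hs' : IsDedekindDomain (AdjoinRoot (Pool.Agent.Zk97.CB.ff w A B)) := hs
  -- the base points and the components as minimal primes
  have e1 : {𝔪 : Ideal M[X][X] | 𝔪.IsMaximal ∧ A ∈ 𝔪 ∧ B ∈ 𝔪} = (Ideal.span {A, B}).minimalPrimes := by
    ext 𝔯
    rw [hP.mem_minimal 𝔯 hW hD]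
    exact ⟨fun h => ⟨h.1.isPrime, h.2⟩, fun h => ⟨hP.isMaximal 𝔯 hW hD h.1 h.2.1 h.2.2, h.2⟩⟩
  have e2 : {𝔭 : Ideal M[X][X] | ∃ π : M[X][X], Irreducible π ∧ π ∣ A ∧ 𝔭 = Ideal.span {π}} =
      (Ideal.span {A}).minimalPrimes := by
    ext 𝔯
    constructor
    · rintro ⟨π, h1, h2, rfl⟩
      have hpr : (Ideal.span {π}).IsPrime := (Ideal.span_singleton_prime h1.ne_zero).2 h1.prime
      refine ⟨⟨hpr, (Ideal.span_singleton_le_iff_mem _).2 (Ideal.mem_span_singleton.2 h2)⟩, ?_⟩
      rintro 𝔮 ⟨hq, hqA⟩ hle
      have h3 : A ∈ 𝔮 := hqA (Ideal.mem_span_singleton_self A)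
      obtain ⟨π', h4, h5⟩ : ∃ π' : M[X][X], Irreducible π' ∧ π' ∈ 𝔮 := by
        have h6 : 𝔮 ≠ ⊥ := by
          rintro rfl
          exact hA0 (Ideal.mem_bot.1 h3)
        obtain ⟨p, hp, hp'⟩ := Ideal.IsPrime.exists_mem_prime_of_ne_bot hq h6
        exact ⟨p, hp'.irreducible, hp⟩
      have h7 : π ∣ π' := Ideal.mem_span_singleton.1 (hle h5)
      have h8 : Associated π π' := h1.associated_of_dvd h4 h7
      rw [Ideal.span_singleton_le_iff_mem]
      exact 𝔮.mem_of_dvd h8.symm.dvd h5
    · intro h
      obtain ⟨π, h1, rfl⟩ := Pool.Agent.Zk97.CB.mem_minimal_one 𝔯 hA0 h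
      exact ⟨π, h1, Ideal.mem_span_singleton.1 (h.1.2 (Ideal.mem_span_singleton_self A)), rfl⟩
  have f1 : (Ideal.span {A, B}).minimalPrimes.Finite :=
    Ideal.finite_minimalPrimes_of_isNoetherianRing _ _
  have f2 : (Ideal.span {A}).minimalPrimes.Finite :=
    Ideal.finite_minimalPrimes_of_isNoetherianRing _ _
  have c1 : basePoints A B = (Ideal.span {A, B}).minimalPrimes.ncard := by
    rw [← e1]
    rfl
  have c2 : components A = (Ideal.span {A}).minimalPrimes.ncard := by
    rw [← e2]
    rfl
  have hrank := hP.rank hW hD hR hw hL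
  rw [← c1, ← c2] at hrank
  have hle : components A ≤ basePoints A B := by
    have h1 : ((components A : ℕ) : Cardinal) ≤ ((basePoints A B : ℕ) : Cardinal) := by
      rw [← hrank]
      exact le_add_self
    exact_mod_cast h1
  refine ⟨Pool.Agent.R410.NG.trdeg_line hd hw hK, hP.irr hW w, ?_, ?_, hle, ?_, ?_⟩
  · rw [← e1] at f1
    exact f1
  · rw [← e2] at f2
    exact f2
  · have h1 : Module.rank ℤ (Additive (ClassGroup (AdjoinRoot (member A B w)))) + (components A : Cardinal) =
        ((basePoints A B - components A : ℕ) : Cardinal) + (components A : Cardinal) := by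
      rw [← Nat.cast_add, Nat.sub_add_cancel hle]
      exact hrank
    exact (Cardinal.add_nat_inj _).1 h1
  · intro R _ _ _ _ _ _ hk G hG N hN S
    have h6 := hP.natural hW hD hZ hC hM hd hw hK R hk G hG hN S
    rw [← c1, ← c2, ← Nat.cast_sub hle] at h6
    have h7 := (Pool.Agent.R410.NG.sumT_lim h6).neg
    have hGc : Pool.Agent.Zk97.CB.IsCab l n G :=
      Pool.Agent.Zk97.CB.cab_of_map (IsFractionRing.injective R K) (by
        rw [hG]
        exact hP.ff_cab w)
    have h8 : Tendsto (fun T : ℝ => Pool.Agent.R410.NG.sumT S (fun v =>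
        -Pool.Agent.R410.NG.avg (Pool.Agent.Zk97.CB.wt l n) (Pool.Agent.Zk97.CB.enc l n G) N (d + 1) v) T / T)
        atTop (𝓝 (-((basePoints A B - components A : ℕ) : ℝ))) := by
      refine h7.congr fun T => ?_
      rw [Pool.Agent.R410.NG.sumT_neg, neg_div]
    refine Pool.Agent.Zk97.CB.sumT_fin (Pool.Agent.Zk97.CB.finite_char (k := k) l hl.ne') ?_ h8
    intro v hv
    have hv' : ((l : ℕ) : 𝓞 k ⧸ v.asIdeal) ≠ 0 := hv
    unfold average Pool.Agent.R410.NG.avg Pool.Agent.R410.NG.sR
    rw [← mul_neg, ← finsum_neg_distrib]
    congr 1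
    refine finsum_congr fun φ => ?_
    have e3 : (fun j => (Pool.Agent.Zk97.CB.enc l n G j).map φ.1) =
        Pool.Agent.Zk97.CB.enc l n (G.map (mapRingHom φ.1)) := by
      funext j
      exact Pool.Agent.Zk97.CB.enc_map _ _ _
    rw [e3, Pool.Agent.Zk97.CB.wt_enc hl hn (hGc.map _) hv']
    unfold traceOne Pool.Agent.Zk97.CB.nq
    ring

end Pool.Agent.Zk97.Old.CabPencils
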